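import Mathlib

set_option autoImplicit false

namespace Pool.Agent.H369Z.Err

open MeasureTheory Filter

namespace H373

open Asymptotics Finset

lemma abel (φ D : ℕ → ℝ) (N : ℕ) : ∑ n ∈ range N, φ n * (D (n + 1) - D n) =
    φ N * D N - φ 0 * D 0 - ∑ n ∈ range N, (φ (n + 1) - φ n) * D (n + 1) := by
  induction N with
  | zero => simp
  | succ N ih => rw [sum_range_succ, sum_range_succ, ih]; ring

lemma near_rpow (ξ : ℝ → ℝ) (h : ∀ x, 0 < x → x ≤ ξ x ∧ ξ x ≤ x + 1) (b : ℝ) :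
    (fun x => ξ x ^ b) =O[atTop] fun x => x ^ b := by
  have h1 : ξ =Θ[atTop] fun x => x := by
    refine ⟨IsBigO.of_bound 2 ?_, IsBigO.of_bound 1 ?_⟩
    · filter_upwards [eventually_ge_atTop 1] with x hx
      have := h x (by linarith)
      rw [Real.norm_of_nonneg (by linarith), Real.norm_of_nonneg (by linarith)]
      linarith
    · filter_upwards [eventually_ge_atTop 1] with x hx
      have := h x (by linarith)
      rw [Real.norm_of_nonneg (by linarith), Real.norm_of_nonneg (by linarith)]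
      linarith
  refine (IsTheta.rpow ?_ ?_ h1).1
  · filter_upwards [eventually_gt_atTop 0] with x hx using hx.le.trans (h x hx).1
  · filter_upwards [eventually_gt_atTop 0] with x hx using hx.le

lemma mvt_choice (f f' : ℝ → ℝ) (hf : ∀ x, 0 < x → HasDerivAt f (f' x) x) :
    ∃ ξ : ℝ → ℝ, (∀ x, 0 < x → x ≤ ξ x ∧ ξ x ≤ x + 1) ∧ Tendsto ξ atTop atTop ∧
      ∀ x, 0 < x → f (x + 1) - f x = f' (ξ x) := by
  have h : ∀ x, 0 < x → ∃ c, (x ≤ c ∧ c ≤ x + 1) ∧ f (x + 1) - f x = f' c := by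
    intro x hx
    obtain ⟨c, hc, h⟩ := exists_hasDerivAt_eq_slope f f' (lt_add_one x)
      (fun y hy => (hf y (hx.trans_le hy.1)).continuousAt.continuousWithinAt)
      (fun y hy => hf y (hx.trans hy.1))
    exact ⟨c, ⟨hc.1.le, hc.2.le⟩, by rw [h]; simp⟩
  choose! ξ h1 h2 using h
  refine ⟨ξ, h1, tendsto_atTop_mono' _ ?_ tendsto_id, h2⟩
  filter_upwards [eventually_gt_atTop 0] with x hx using (h1 x hx).1

lemma mvt_bigO (f f' : ℝ → ℝ) (hf : ∀ x, 0 < x → HasDerivAt f (f' x) x) (b : ℝ)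
    (h : f' =O[atTop] fun x => x ^ b) : (fun x => f (x + 1) - f x) =O[atTop] fun x => x ^ b := by
  obtain ⟨ξ, h1, h2, h3⟩ := mvt_choice f f' hf
  refine EventuallyEq.trans_isBigO ?_ ((h.comp_tendsto h2).trans (near_rpow ξ h1 b))
  filter_upwards [eventually_gt_atTop 0] with x hx using h3 x hx

lemma poly_log (Q : Polynomial ℝ) {κ : ℝ} (hκ : 0 < κ) :
    (fun x => Q.eval (Real.log x)) =O[atTop] fun x : ℝ => x ^ κ := by
  simp only [Polynomial.eval_eq_sum_range]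
  have h : ∀ i ∈ range (Q.natDegree + 1), (fun x => Q.coeff i * Real.log x ^ i) =O[atTop]
      fun x : ℝ => x ^ κ := fun i _ => IsBigO.const_mul_left
    (by simpa using (isLittleO_log_rpow_rpow_atTop (i : ℝ) hκ).isBigO) _
  exact (IsBigO.sum h).congr_left fun x => by simp [Finset.sum_apply]

lemma poly_lower (Q : Polynomial ℝ) (hQ : Q ≠ 0) :
    ∃ c : ℝ, 0 < c ∧ ∀ᶠ y : ℝ in atTop, c ≤ |Q.eval y| := by
  rcases lt_or_ge 0 Q.degree with h | h
  · exact ⟨1, one_pos, (Q.abs_tendsto_atTop h).eventually_ge_atTop 1⟩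
  · rw [Polynomial.eq_C_of_degree_le_zero h] at hQ ⊢
    refine ⟨|Q.coeff 0|, abs_pos.mpr fun h0 => hQ (by rw [h0]; simp), ?_⟩
    simp

lemma shift {f : ℕ → ℝ} {b : ℝ} (h : f =O[atTop] fun n : ℕ => (n : ℝ) ^ b) :
    (fun n => f (n + 1)) =O[atTop] fun n : ℕ => (n : ℝ) ^ b := by
  refine (h.comp_tendsto (tendsto_add_atTop_nat 1)).trans ?_
  have := (near_rpow (fun x => x + 1) (fun x _ => ⟨by linarith, le_rfl⟩) b).comp_tendsto
    tendsto_natCast_atTop_atTop
  simpa [Function.comp_def] using this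

lemma mono {a b : ℝ} (h : a ≤ b) :
    (fun n : ℕ => (n : ℝ) ^ a) =O[atTop] fun n : ℕ => (n : ℝ) ^ b := by
  refine IsBigO.of_bound 1 ?_
  filter_upwards [eventually_ge_atTop 1] with n hn
  rw [Real.norm_of_nonneg (by positivity), Real.norm_of_nonneg (by positivity), one_mul]
  exact Real.rpow_le_rpow_of_exponent_le (by exact_mod_cast hn) h

lemma mul' {f g : ℕ → ℝ} {a b c : ℝ} (h1 : f =O[atTop] fun n : ℕ => (n : ℝ) ^ a)
    (h2 : g =O[atTop] fun n : ℕ => (n : ℝ) ^ b) (h : a + b ≤ c) :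
    (fun n => f n * g n) =O[atTop] fun n : ℕ => (n : ℝ) ^ c := by
  refine (h1.mul h2).trans (EventuallyEq.trans_isBigO ?_ (mono h))
  filter_upwards [eventually_gt_atTop 0] with n hn
  rw [Real.rpow_add (by exact_mod_cast hn)]

lemma const' (c : ℝ) {a : ℝ} (ha : 0 ≤ a) :
    (fun _ : ℕ => c) =O[atTop] fun n : ℕ => (n : ℝ) ^ a := by
  refine IsBigO.trans ?_ (mono ha)
  simpa using isBigO_const_const c (one_ne_zero (α := ℝ)) (atTop : Filter ℕ)

lemma sum' {f : ℕ → ℝ} {a : ℝ} (ha : 0 ≤ a) (h : f =O[atTop] fun n : ℕ => (n : ℝ) ^ a) :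
    (fun N => ∑ n ∈ range N, f n) =O[atTop] fun n : ℕ => (n : ℝ) ^ (a + 1) := by
  obtain ⟨C, hC, h1⟩ := bound_of_isBigO_nat_atTop h
  refine IsBigO.of_bound (|f 0| + C) ?_
  filter_upwards [eventually_ge_atTop 1] with N hN
  have hN' : (1 : ℝ) ≤ N := by exact_mod_cast hN
  have h2 : ∀ n ∈ range N, ‖f n‖ ≤ (|f 0| + C) * (N : ℝ) ^ a := by
    intro n hn
    have h3 : 1 ≤ (N : ℝ) ^ a := Real.one_le_rpow hN' ha
    rcases Nat.eq_zero_or_pos n with rfl | h0
    · rw [Real.norm_eq_abs]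
      nlinarith [abs_nonneg (f 0)]
    · refine (h1 (by positivity)).trans ?_
      rw [Real.norm_of_nonneg (by positivity)]
      have := abs_nonneg (f 0)
      have := (mem_range.mp hn).le
      gcongr
      linarith
  refine (norm_sum_le _ _).trans ((sum_le_sum h2).trans (le_of_eq ?_))
  rw [Real.norm_of_nonneg (by positivity), Real.rpow_add_one (by positivity)]
  simp only [sum_const, card_range, nsmul_eq_mul]
  ring

lemma sum'' {f : ℕ → ℝ} {a : ℝ} (ha : a < -1) (h : f =O[atTop] fun n : ℕ => (n : ℝ) ^ a) :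
    (fun N => ∑ n ∈ range N, f n) =O[atTop] fun n : ℕ => (n : ℝ) ^ (0 : ℝ) := by
  have h1 := (summable_of_isBigO_nat (Real.summable_nat_rpow.mpr ha) h).hasSum.tendsto_sum_nat
  simpa using h1.isBigO_one ℝ

lemma of_le {f : ℕ → ℝ} {a C : ℝ} (h : ∀ᶠ n : ℕ in atTop, |f n| ≤ C * (n : ℝ) ^ a) :
    f =O[atTop] fun n : ℕ => (n : ℝ) ^ a := by
  refine IsBigO.of_bound C ?_
  filter_upwards [h] with n hn
  rwa [Real.norm_of_nonneg (by positivity : 0 ≤ (n : ℝ) ^ a)]

lemma q_facts (P : Polynomial ℝ) (hP : P ≠ 0) {κ : ℝ} (hκ : 0 < κ) (q : ℕ → ℝ)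
    (hq : ∀ n : ℕ, q n = ((n : ℝ) + 1) * P.eval (Real.log ((n : ℝ) + 1)) -
      n * P.eval (Real.log n)) :
    (∀ᶠ n in atTop, q n ≠ 0) ∧ ((fun n => (q n)⁻¹) =O[atTop] fun n : ℕ => (n : ℝ) ^ (0 : ℝ)) ∧
      (fun n => q (n + 1) - q n) =O[atTop] fun n : ℕ => (n : ℝ) ^ (κ - 1) := by
  set Q := P + Polynomial.derivative P with hQ
  have hQ0 : Q ≠ 0 := fun h => by
    have h1 := Polynomial.degree_derivative_lt hP
    rw [eq_neg_of_add_eq_zero_right h, Polynomial.degree_neg] at h1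
    exact lt_irrefl _ h1
  have hlog : ∀ (T : Polynomial ℝ) (x : ℝ), 0 < x → HasDerivAt (fun x => T.eval (Real.log x))
      ((Polynomial.derivative T).eval (Real.log x) * x⁻¹) x := fun T x hx =>
    (T.hasDerivAt (Real.log x)).comp x (Real.hasDerivAt_log hx.ne')
  have hF : ∀ x : ℝ, 0 < x → HasDerivAt (fun x => x * P.eval (Real.log x))
      (Q.eval (Real.log x)) x := fun x hx => by
    refine ((hasDerivAt_id x).mul (hlog P x hx)).congr_deriv ?_
    rw [hQ, Polynomial.eval_add]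
    simp only [id]
    field_simp
  obtain ⟨c, hc, h1⟩ := poly_lower Q hQ0
  obtain ⟨ξ, -, h2, h3⟩ := mvt_choice _ _ hF
  have h4 : ∀ᶠ n in atTop, c ≤ |q n| := by
    filter_upwards [((Real.tendsto_log_atTop.comp h2).comp tendsto_natCast_atTop_atTop).eventually
      h1, eventually_gt_atTop 0] with n hn h0
    rw [hq, h3 n (by exact_mod_cast h0)]
    exact hn
  refine ⟨?_, of_le (C := c⁻¹) ?_, ?_⟩
  · filter_upwards [h4] with n hn h0
    rw [h0, abs_zero] at hn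
    linarith
  · filter_upwards [h4] with n hn
    rw [Real.rpow_zero, mul_one, abs_inv]
    exact inv_anti₀ hc hn
  · have h5 : (fun x => (Polynomial.derivative Q).eval (Real.log x) * x⁻¹) =O[atTop]
        fun x : ℝ => x ^ (κ - 1) := by
      refine ((poly_log _ hκ).mul (isBigO_refl _ _)).trans (EventuallyEq.isBigO ?_)
      filter_upwards [eventually_gt_atTop 0] with x hx
      rw [Real.rpow_sub_one hx.ne', div_eq_mul_inv]
    have h6 := mvt_bigO _ _ (hlog Q) _ h5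
    have h7 := mvt_bigO (fun x => (x + 1) * P.eval (Real.log (x + 1)) - x * P.eval (Real.log x)) _
      (fun x hx => ((hF (x + 1) (by linarith)).comp_add_const x 1).sub (hF x hx)) _ h6
    refine EventuallyEq.trans_isBigO (Eventually.of_forall fun n => ?_)
      (h7.comp_tendsto tendsto_natCast_atTop_atTop)
    simp [hq]

end H373

open H373 Asymptotics in
theorem weight_remove (u : ℕ → ℝ) (w : ℝ → ℝ) (P : Polynomial ℝ) (hP : P ≠ 0)
    (η ε σ C1 C2 C3 : ℝ) (hε : 0 ≤ ε) (hσ1 : 1 / 2 < σ) (hσ2 : 2 - η + ε < 2 * σ)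
    (hw : ∀ x y : ℝ, IntervalIntegrable w volume x y)
    (hW : ∀ᶠ T : ℝ in atTop, |(∫ t in (1 : ℝ)..T, w t) - T * P.eval (Real.log T)| ≤ C1 * T ^ (1 - η))
    (hu1 : ∀ n : ℕ, 1 ≤ n → |u n| ≤ C2 * (n : ℝ) ^ (2 + ε))
    (hu2 : ∀ n : ℕ, 1 ≤ n → |u (n + 1) - u n| ≤ C2 * (n : ℝ) ^ (1 + ε))
    (hJ : ∀ᶠ N : ℕ in atTop,
      |∑ n ∈ Finset.Ico 1 N, u n * ∫ t in (n : ℝ)..((n : ℝ) + 1), w t| ≤ C3 * (N : ℝ) ^ (2 : ℝ)) :
    ∃ K : ℝ, ∀ N : ℕ, |∑ n ∈ Finset.Icc 1 N, u n * (n : ℝ) ^ (-(2 * σ + 1))| ≤ K := by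
  obtain ⟨θ, hθ1, hθ2, hθ3⟩ : ∃ θ : ℝ, 2 ≤ θ ∧ 3 - η + ε ≤ θ ∧ θ < 2 * σ + 1 :=
    ⟨max 2 (3 - η + ε), le_max_left _ _, le_max_right _ _, max_lt (by linarith) (by linarith)⟩
  set s := 2 * σ + 1 with hs
  set q : ℕ → ℝ := fun n => ((n : ℝ) + 1) * P.eval (Real.log ((n : ℝ) + 1)) -
      n * P.eval (Real.log n) with hq
  obtain ⟨hq0, hq1, hq2⟩ := q_facts P hP (κ := (s - θ) / 2) (by linarith) q fun n => rfl
  set R : ℕ → ℝ := fun n => (∫ t in (1 : ℝ)..n, w t) - n * P.eval (Real.log n) with hR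
  have hRO : R =O[atTop] fun n : ℕ => (n : ℝ) ^ (1 - η) :=
    of_le (tendsto_natCast_atTop_atTop.eventually hW)
  have hqR : ∀ n : ℕ, q n = (∫ t in (n : ℝ)..((n : ℝ) + 1), w t) - (R (n + 1) - R n) := by
    intro n
    simp only [hq, hR]
    push_cast
    rw [← intervalIntegral.integral_add_adjacent_intervals (hw 1 n) (hw n (n + 1))]
    ring
  have huO : u =O[atTop] fun n : ℕ => (n : ℝ) ^ (2 + ε) :=
    of_le ((eventually_ge_atTop 1).mono hu1)
  have hdO : (fun n => u (n + 1) - u n) =O[atTop] fun n : ℕ => (n : ℝ) ^ (1 + ε) :=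
    of_le ((eventually_ge_atTop 1).mono hu2)
  set D : ℕ → ℝ := fun N => ∑ n ∈ Finset.range N, u n * q n with hD
  have hDO : D =O[atTop] fun n : ℕ => (n : ℝ) ^ θ := by
    have h1 := ((const' (u 0 * ∫ t in ((0 : ℕ) : ℝ)..(((0 : ℕ) : ℝ) + 1), w t)
      (by linarith : 0 ≤ θ)).add ((of_le hJ).trans (mono hθ1))).sub
      (((mul' huO hRO (by linarith : _ ≤ θ)).sub (const' (u 0 * R 0) (by linarith))).sub
        (by simpa using sum' (a := θ - 1) (by linarith) (mul' hdO (shift hRO) (by linarith))))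
    refine EventuallyEq.trans_isBigO ?_ h1
    filter_upwards [eventually_gt_atTop 0] with N hN
    rw [← abel, ← Finset.sum_eq_sum_Ico_succ_bot hN
      (fun n => u n * ∫ t in (n : ℝ)..((n : ℝ) + 1), w t), ← Finset.range_eq_Ico,
      ← Finset.sum_sub_distrib]
    exact Finset.sum_congr rfl fun n _ => by rw [hqR]; ring
  set φ : ℕ → ℝ := fun n => (n : ℝ) ^ (-s) * (q n)⁻¹ with hφ
  have hφO : φ =O[atTop] fun n : ℕ => (n : ℝ) ^ (-s) :=
    mul' (isBigO_refl _ _) hq1 (by linarith)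
  have hφd : (fun n => φ (n + 1) - φ n) =O[atTop] fun n : ℕ => (n : ℝ) ^ (-s + ((s - θ) / 2 - 1)) := by
    have h1 := (mvt_bigO (fun x => x ^ (-s)) (fun x => -s * x ^ (-s - 1))
      (fun x hx => Real.hasDerivAt_rpow_const (Or.inl hx.ne')) _
      ((isBigO_refl _ _).const_mul_left _)).comp_tendsto tendsto_natCast_atTop_atTop
    have h2 := (mul' (a := -s - 1) h1 (shift hq1) (by linarith : _ ≤ -s + ((s - θ) / 2 - 1))).sub
      (mul' (isBigO_refl (fun n : ℕ => (n : ℝ) ^ (-s)) _)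
        (mul' hq2 (mul' hq1 (shift hq1) le_rfl) le_rfl) (by linarith))
    refine EventuallyEq.trans_isBigO ?_ h2
    filter_upwards [hq0, (tendsto_add_atTop_nat 1).eventually hq0] with n h3 h4
    simp only [hφ, Function.comp]
    push_cast
    field_simp
    ring
  have h1 : (fun n => u n * (n : ℝ) ^ (-s) - φ n * (D (n + 1) - D n)) =O[atTop]
      fun n : ℕ => (n : ℝ) ^ (-2 : ℝ) := by
    refine EventuallyEq.trans_isBigO ?_ (isBigO_zero _ _)
    filter_upwards [hq0] with n h3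
    simp only [hφ, hD, Finset.sum_range_succ]
    field_simp
    ring
  have h2 := (sum'' (by norm_num) h1).add (((mul' hφO hDO (by linarith : _ ≤ (0 : ℝ))).sub
    (const' (φ 0 * D 0) le_rfl)).sub
      (sum'' (a := -s + ((s - θ) / 2 - 1) + θ) (by linarith) (mul' hφd (shift hDO) le_rfl)))
  obtain ⟨K, -, hK⟩ := bound_of_isBigO_nat_atTop h2
  refine ⟨K, fun N => ?_⟩
  have h3 := @hK (N + 1) (by simp)
  rw [← abel, ← Finset.sum_add_distrib] at h3
  simp only [sub_add_cancel, Real.rpow_zero, norm_one, mul_one, Real.norm_eq_abs] at h3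
  rw [Finset.range_eq_Ico, Finset.sum_eq_sum_Ico_succ_bot N.succ_pos, Nat.cast_zero,
    Real.zero_rpow (by linarith), mul_zero, zero_add] at h3
  exact h3

end Pool.Agent.H369Z.Err
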